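import Pool.Agent.helper616_TX.Main
import Pool.Agent.helper616_TX.TX17

/-!
# The asymptotic formula in the problem of Waring–Goldbach with almost all real coefficients, `s ≥ 2 k + 1`

Let `s ≥ 2 k + 1`. For almost all positive real coefficients `l 1, …, l s` the asymptotic formula for the number of the
solutions of `t < l 1 x 1 ^ k + … + l s x s ^ k ≤ t + h` holds for all real `t`, with any power of the logarithm saved and
uniformly in `0 < h ≤ 1`, where the variables `x i` are positive integers, or prime numbers with the weight `log x i`, or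
have any other weights with mean value one.

Proof: for `|ξ| > (log P) ^ B / P ^ k`, `t = P ^ k`, the product of the exponential sums `∑ w(x) e(ξ l i x ^ k)` is small on
average over `l`, so that its integral over these `ξ` bounds the error uniformly in `t`; a comparison of the windows `h`
and `t / (log t) ^ B` reduces the problem to long windows.
-/

set_option autoImplicit false

open Filter Topology MeasureTheory

namespace Pool.Agent.Results.MP_efcac8_nt.AsymptoticFormula

/-- Nonnegative weights, at most a power of the logarithm, with mean value one, with any power of the logarithm saved.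
Examples: `w n = 1`; `w n = log n` for `n` prime and `w n = 0` otherwise. -/
def WellDistributed (w : ℕ → ℝ) : Prop :=
  (∀ n, 0 ≤ w n) ∧ (∃ (C : ℝ) (K : ℕ), ∀ n : ℕ, w n ≤ C * (Real.log (n + 2)) ^ K) ∧
    ∀ A : ℕ, ∃ C : ℝ, ∀ N : ℕ, 2 ≤ N → |∑ n ∈ Finset.range N, w n - N| ≤ C * N / (Real.log N) ^ A

/-- The number of the solutions of `t < ∑ l i * x i ^ k ≤ t + h` in positive integers, each counted with the weight
`∏ w i (x i)`. -/
noncomputable def count {s : ℕ} (k : ℕ) (w : Fin s → ℕ → ℝ) (l : Fin s → ℝ) (t h : ℝ) : ℝ :=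
  ∑ᶠ x ∈ {x : Fin s → ℕ | (∀ i, 1 ≤ x i) ∧ t < ∑ i, l i * (x i : ℝ) ^ k ∧ ∑ i, l i * (x i : ℝ) ^ k ≤ t + h}, ∏ i, w i (x i)

/-- The constant `Γ(1 + 1/k) ^ s / Γ(s/k) * (l 1 ⋯ l s) ^ (-1/k)`. -/
noncomputable def constant {s : ℕ} (k : ℕ) (l : Fin s → ℝ) : ℝ :=
  Real.Gamma (1 + 1 / (k : ℝ)) ^ s / Real.Gamma ((s : ℝ) / k) * ∏ i, (l i) ^ (-(1 / (k : ℝ)))

/-- Let `s ≥ 2 k + 1` and let `w 1, …, w s` be weights with mean value one. For almost all `l ∈ (0, ∞) ^ s` the
weighted number of the solutions of `t < ∑ l i * x i ^ k ≤ t + h` is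
`h * constant k l * t ^ (s / k - 1) + O(t ^ (s / k - 1) / (log t) ^ A)` for all `A`, all `t ≥ 2` and all `0 < h ≤ 1`. -/
theorem result (k s : ℕ) (hk : 1 ≤ k) (hs : 2 * k + 1 ≤ s) (w : Fin s → ℕ → ℝ) (hw : ∀ i, WellDistributed (w i)) :
    ∀ᵐ l : Fin s → ℝ, (∀ i, 0 < l i) → ∀ A : ℕ, ∃ C : ℝ, ∀ t h : ℝ, 2 ≤ t → 0 < h → h ≤ 1 →
      |count k w l t h - h * constant k l * t ^ ((s : ℝ) / k - 1)| ≤ C * t ^ ((s : ℝ) / k - 1) / (Real.log t) ^ A := by
  have h0 : ∀ i n, 0 ≤ w i n := fun i => (hw i).1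
  have h1 : ∀ i, Pool.Agent.helper616_TS.LogBdd (w i) := by
    intro i
    obtain ⟨-, ⟨C, K, hC⟩, -⟩ := hw i
    exact ⟨C, K, fun n => by rw [abs_of_nonneg (h0 i n)]; exact hC n⟩
  have h2 : ∀ i, Pool.Agent.helper616_TS.MeanZero (fun n => w i n - 1) := by
    intro i A
    obtain ⟨-, -, h⟩ := hw i
    obtain ⟨C, hC⟩ := h A
    refine ⟨C, fun N hN => ?_⟩
    rw [Finset.sum_sub_distrib, Finset.sum_const, Finset.card_range, nsmul_eq_mul, mul_one]
    exact hC N hN
  filter_upwards [Pool.Agent.helper616_TW.asymptotic k s hk hs w h0 h1 h2] with l hl hpos A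
  obtain ⟨C, hC⟩ := hl hpos A
  refine ⟨C, fun t h ht hh hh1 => ?_⟩
  have h3 := hC t h ht hh hh1
  have h4 := Pool.Agent.helper616_TW.TX17.Dformula k s hk (by omega) l hpos t
  have e : count k w l t h - h * constant k l * t ^ ((s : ℝ) / k - 1) =
      Pool.Agent.helper616_TW.Nall k w l t h - h * Pool.Agent.helper616_TW.D k l t := by
    rw [h4]
    unfold constant
    have : count k w l t h = Pool.Agent.helper616_TW.Nall k w l t h := rfl
    rw [this]
    ring
  rw [e]
  exact h3

end Pool.Agent.Results.MP_efcac8_nt.AsymptoticFormula
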